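import Pool.Agent.Helper96.SE.St
import Pool.Agent.Helper6.WS.M_W5

/-!
# Project SE, module E3: the `L`-function is a polynomial
-/

set_option autoImplicit false

namespace Pool.Agent.Helper17.SE

open Pool.Agent.Helper96.SE Pool.Agent.Helper96.BC Pool.Agent.Helper95.TT Pool.Agent.Helper24.TF
  Pool.Agent.Helper95.WS
open Polynomial

/-- the degree of a polynomial with a factor of multiplicity prime to `n` -/
theorem NP_deg {F : Type} [Field F] (n : ℕ) (f : F[X]) (hf : f ≠ 0) (h : NP n f) :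
    1 ≤ f.natDegree := by
  obtain ⟨P, f₁, a, hP, -, ha, hfa⟩ := h
  have ha0 : a ≠ 0 := by
    rintro rfl
    exact ha (dvd_zero n)
  have h1 : P ^ a ∣ f := ⟨f₁, hfa⟩
  have h2 := natDegree_le_of_dvd h1 hf
  rw [natDegree_pow] at h2
  have h3 : 0 < P.natDegree := hP.natDegree_pos
  have h4 : 0 < a * P.natDegree := Nat.mul_pos (Nat.pos_of_ne_zero ha0) h3
  omega

private theorem NP_mul {F : Type} [Field F] (n : ℕ) (f : F[X]) (b : F) (hb : b ≠ 0) (h : NP n f) :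
    NP n (C b * f) := by
  obtain ⟨P, f₁, a, hP, hPf, ha, hfa⟩ := h
  refine ⟨P, C b * f₁, a, hP, ?_, ha, ?_⟩
  · intro hd
    apply hPf
    have hu : IsUnit (C b : F[X]) := isUnit_C.2 (isUnit_iff_ne_zero.2 hb)
    exact (hu.dvd_mul_left).1 hd
  · rw [hfa]; ring

theorem hE3 : StW1 → StE2 → StE3 := by
  intro hW1 hE2 F _ _ ψ f n hn hψ hψn hf0 hnp
  have hd : 1 ≤ f.natDegree := NP_deg n f hf0 hnp
  have hc : f.leadingCoeff ≠ 0 := leadingCoeff_ne_zero.2 hf0
  set c := f.leadingCoeff with hc'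
  obtain ⟨f₀, hf₀⟩ : ∃ f₀ : F[X], f₀ = C c⁻¹ * f := ⟨_, rfl⟩
  have hff : f = C c * f₀ := by
    rw [hf₀, ← mul_assoc, ← C_mul, mul_inv_cancel₀ hc, C_1, one_mul]
  have h₀ : f₀.Monic := by
    unfold Monic
    rw [hf₀, leadingCoeff_mul, leadingCoeff_C, ← hc', inv_mul_cancel₀ hc]
  have hnat : f.natDegree = f₀.natDegree := by
    rw [hff, natDegree_C_mul hc]
  have hnp₀ : NP n f₀ := by
    rw [hf₀]
    exact NP_mul n f c⁻¹ (inv_ne_zero hc) hnp
  rw [hnat] at hd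
  have h4 := hE2 F ψ f₀ n hn hψ hψn h₀ hnp₀
  have hAA : ∀ n, AA ψ f n = ψ c ^ n * ψ (-1) ^ (n * f₀.natDegree) *
      ∑ h ∈ Mn F n, ψ (resultant f₀ h f₀.natDegree n) := by
    intro n
    unfold AA
    rw [Finset.mul_sum]
    refine Finset.sum_congr rfl fun h hh => ?_
    rw [((hW1 F ψ f₀).1 n h)] at hh
    rw [hff]
    exact Pool.Agent.Helper6.WS.lam_eq ψ c hc f₀ n h hh.2
  rw [hnat]
  constructor
  · intro n hn
    rw [hAA, Pool.Agent.Helper6.WS.part1 hW1 ψ f₀ h₀ hd h4 n hn, mul_zero]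
  · intro hb
    rw [← Pool.Agent.Helper6.WS.part2 hW1 ψ f₀ h₀ hd h4 hb]
    refine Finset.sum_congr rfl fun n _ => ?_
    have h1 : ψ (-1) ^ (n * f₀.natDegree) = 1 := by
      rw [mul_comm, pow_mul, hb (-1) (neg_ne_zero.2 one_ne_zero), one_pow]
    have h2 : ψ c ≠ 0 := by
      intro h
      have h3 := hb c hc
      rw [h, zero_pow (by omega)] at h3
      exact zero_ne_one h3
    rw [hAA, h1, mul_one, ← mul_assoc, ← mul_pow, inv_mul_cancel₀ h2, one_pow, one_mul]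

end Pool.Agent.Helper17.SE
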