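import Pool.Agent.Helper96.SE.St
import Pool.Agent.Helper83.WS.M_W11
import Pool.Agent.Helper17.SE.M_E3

/-!
# Project SE, module E6: Weil's bound for characters of prime order
-/

set_option autoImplicit false

namespace Pool.Agent.Helper17.SE

open Pool.Agent.Helper96.SE Pool.Agent.Helper96.BC Pool.Agent.Helper95.TT Pool.Agent.Helper24.TF
  Pool.Agent.Helper95.WS
open Polynomial

theorem hE6 : StW1 → StW6 → StW7 → StW8 → StW9 → StE3 → StE5 → StE6 := by
  intro hW1 hW6 hW7 hW8 hW9 hE3' hE5 F _ _ ψ n f hn hψ1 hψn hf0 hnp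
  have hd : 1 ≤ f.natDegree := NP_deg n f hf0 hnp
  obtain ⟨-, -, hA0, -⟩ := hW1 F ψ f
  obtain ⟨hAd, hAe⟩ := hE3' F ψ f n hn hψ1 hψn hf0 hnp
  obtain ⟨s, hcs, hps, hpr⟩ := hW8 f.natDegree (AA ψ f) (PS ψ f) hd hA0 hAd
    (fun j => hW6 F ψ f j)
  obtain ⟨Cst, hCst⟩ := hE5 F ψ n f hn hψ1 hψn hf0 hnp
  set q := Fintype.card F with hq
  have hq0 : (0 : ℝ) ≤ q := Nat.cast_nonneg _
  -- power sums
  have hpow : ∀ r, 1 ≤ r → ‖(s.map (fun α => α ^ r)).sum‖ ≤ Cst * (√(q : ℝ)) ^ r := by
    intro r hr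
    have : Fact (ringChar F).Prime := ⟨CharP.char_is_prime F (ringChar F)⟩
    have : NeZero r := ⟨by omega⟩
    let : Fintype (FiniteField.Extension F (ringChar F) r) := Fintype.ofFinite _
    have h1 := hCst (FiniteField.Extension F (ringChar F) r)
    rw [hW7, FiniteField.finrank_extension, hps r hr, norm_neg] at h1
    have h2 : Fintype.card (FiniteField.Extension F (ringChar F) r) = q ^ r := by
      rw [Fintype.card_eq_nat_card, FiniteField.natCard_extension, hq, Fintype.card_eq_nat_card]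
    rw [h2] at h1
    push_cast at h1
    have h3 : √((q : ℝ) ^ r) = (√(q : ℝ)) ^ r := by
      rw [Real.sqrt_eq_iff_mul_self_eq (by positivity) (by positivity), ← mul_pow,
        Real.mul_self_sqrt hq0]
    rw [h3] at h1
    exact h1
  have hα : ∀ α ∈ s, ‖α‖ ≤ √(q : ℝ) := hW9 s Cst (√(q : ℝ)) (Real.sqrt_nonneg _) hpow
  -- the sum over F
  have hS : ∑ x : F, ψ (f.eval x) = - s.sum := by
    have h1 := hW7 F F ψ f
    rw [Module.finrank_self, hps 1 le_rfl] at h1
    simp only [pow_one, Multiset.map_id'] at h1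
    rw [← h1]
    unfold SS
    apply Finset.sum_congr rfl
    intro x _
    rw [Algebra.norm_self, MonoidHom.id_apply, Polynomial.coe_aeval_eq_eval]
  have hlc : f.leadingCoeff ≠ 0 := leadingCoeff_ne_zero.2 hf0
  have hψb : ∀ b : F, b ≠ 0 → ψ b ^ n = 1 := by
    intro b hb
    have h1 : (ψ ^ n) b = (1 : MulChar F ℂ) b := by rw [hψn]
    rw [MulChar.pow_apply' ψ hn.ne_zero, MulChar.one_apply (isUnit_iff_ne_zero.2 hb)] at h1
    exact h1
  refine ⟨?_, ?_⟩
  · have hb := Pool.Agent.Helper83.WS.norm_msum_le (√(q : ℝ)) s hα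
    rw [hS, norm_neg]
    rw [hcs] at hb
    exact hb
  · intro hnd
    set e := ψ f.leadingCoeff with he
    have he0 : e ≠ 0 := by
      intro h
      have h1 := hψb _ hlc
      rw [← he, h, zero_pow hn.ne_zero] at h1
      exact zero_ne_one h1
    have hmem : e ∈ s := by
      have h1 := hpr e
      have h2 : ∑ j ∈ Finset.range f.natDegree, AA ψ f j * e ^ (f.natDegree - 1 - j) =
          e ^ (f.natDegree - 1) * ∑ j ∈ Finset.range f.natDegree, e⁻¹ ^ j * AA ψ f j := by
        rw [Finset.mul_sum]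
        apply Finset.sum_congr rfl
        intro j hj
        rw [Finset.mem_range] at hj
        have h3 : e ^ (f.natDegree - 1) = e ^ (f.natDegree - 1 - j) * e ^ j := by
          rw [← pow_add]; congr 1; omega
        rw [h3]
        have h4 : e ^ j * e⁻¹ ^ j = 1 := by rw [← mul_pow, mul_inv_cancel₀ he0, one_pow]
        calc AA ψ f j * e ^ (f.natDegree - 1 - j) =
            e ^ (f.natDegree - 1 - j) * 1 * AA ψ f j := by ring
          _ = e ^ (f.natDegree - 1 - j) * (e ^ j * e⁻¹ ^ j) * AA ψ f j := by rw [h4]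
          _ = _ := by ring
      have h5 : ∑ j ∈ Finset.range f.natDegree, e⁻¹ ^ j * AA ψ f j = 0 := by
        apply hAe
        intro b hb
        obtain ⟨k, hk⟩ := hnd
        rw [hk, pow_mul, hψb b hb, one_pow]
      rw [h2, h5, mul_zero, Multiset.prod_eq_zero_iff, Multiset.mem_map] at h1
      obtain ⟨α, hα1, hα2⟩ := h1
      rw [sub_eq_zero] at hα2
      rw [hα2]; exact hα1
    obtain ⟨t, ht⟩ := Multiset.exists_cons_of_mem hmem
    have hct : Multiset.card t = f.natDegree - 2 := by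
      rw [ht, Multiset.card_cons] at hcs
      omega
    have hb := Pool.Agent.Helper83.WS.norm_msum_le (√(q : ℝ)) t
      (fun α h => hα α (by rw [ht]; exact Multiset.mem_cons_of_mem h))
    have hSt : ∑ x : F, ψ (f.eval x) + e = - t.sum := by
      rw [hS, ht, Multiset.sum_cons]
      ring
    rw [hSt, norm_neg]
    rw [hct] at hb
    exact hb

end Pool.Agent.Helper17.SE
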